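import Pool.Agent.W522.C.C10

/-!
# Semisimplicity of `ℓ`-adic cohomology for a positive proportion of the primes `ℓ`
-/

set_option autoImplicit false

namespace Pool.Agent.Results.MP_8f1292_ag.RegularFrobenius

open Polynomial Pool.Agent.W522.C

/-- **Semisimplicity for a set of primes of positive density, from Frobenius polynomials.**
Let `S` be a family of `ℓ`-adic representations of a group `G`, for all prime numbers `ℓ`,
with non-degenerate forms preserved up to scalars.

(1) If some element `g` of `G` (a Frobenius element) acts on all `S ℓ`, `ℓ` outside a finite set,
with the same characteristic polynomial `P ∈ ℤ[T]`, pure and without multiple roots, then the set of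
prime numbers `ℓ` for which `S ℓ` is semisimple has lower density at least `1 / [L : ℚ]`, where `L`
is the field generated by the complex roots of `P`.

(2) The same holds if finitely many such elements `g i`, with pure polynomials `P i` which may have
multiple roots, are given, such that for every `r ≥ 1` some `P i` is not divisible by the square of
a real polynomial of degree `r`.

(3) Let a set `W` of such systems be given, with fields of degree at most `B`, and let `E ⊆ ℂ` be a
finite Galois extension of `ℚ` such that for every number field `M ⊆ ℂ` the field of some member of
`W` meets `M` inside `E`. Then `S ℓ` is semisimple for a set of prime numbers `ℓ` of lower density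
at least `1 / [E : ℚ]`, in particular for all `ℓ` outside a set of density zero if `E = ℚ`. -/
theorem result {G : Type*} [Group G] (S : Fam G) :
    (∀ (bad : Finset ℕ) (g : G) (P : ℤ[X]) (q : ℕ), Pure S bad g P q → NoMultipleRoots P →
      SemisimpleForDensity S (rootField {P})) ∧
    (∀ w : System S, SemisimpleForDensity S w.field) ∧
    (∀ (W : Set (System S)) (B : ℕ) (E : IntermediateField ℚ ℂ), FiniteGalois E →
      (∀ w ∈ W, deg w.field ≤ B) → Core W E → SemisimpleForDensity S E) :=
  ⟨density_single, density_system, density_core⟩

end Pool.Agent.Results.MP_8f1292_ag.RegularFrobenius
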